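import Pool.Agent.V11153.LA.Frugal

set_option autoImplicit false

/-!
Circulant graphs of odd degree.
-/

namespace Pool.Agent.V11153.LA

open SimpleGraph H931R3.LA Pool.Agent.W111.LAR Pool.Agent.TH525.FRG Pool.Agent.TH486.LAC
  Pool.Agent.Y647.LAC

section

variable {m : ℕ} [NeZero m]

/-- The projection. -/
def pr (m : ℕ) : ZMod (2 * m) →+* ZMod m := ZMod.castHom (Dvd.intro_left 2 rfl) (ZMod m)

theorem pr_nat (r : ℕ) : pr m (r : ZMod (2 * m)) = (r : ZMod m) := map_natCast _ r

theorem pr_zero {z : ZMod (2 * m)} (h : pr m z = 0) : z = 0 ∨ z = (m : ZMod (2 * m)) := by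
  have hm : 0 < m := Nat.pos_of_ne_zero (NeZero.ne m)
  have : NeZero (2 * m) := ⟨by omega⟩
  have hz : ((z.val : ℕ) : ZMod (2 * m)) = z := ZMod.natCast_zmod_val z
  rw [← hz, pr_nat, ZMod.natCast_eq_zero_iff] at h
  obtain ⟨k, hk⟩ := h
  have hlt := ZMod.val_lt z
  have hk2 : k < 2 := by
    by_contra hcon
    have : m * 2 ≤ m * k := Nat.mul_le_mul_left m (by omega)
    omega
  have : k = 0 ∨ k = 1 := by omega
  rcases this with rfl | rfl
  · left
    rw [← hz, hk]; simp
  · right
    rw [← hz, hk]; simp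

theorem m_add_m : (m : ZMod (2 * m)) + (m : ZMod (2 * m)) = 0 := by
  have h : ((2 * m : ℕ) : ZMod (2 * m)) = 0 := ZMod.natCast_self _
  rw [← h]; push_cast; ring

theorem pr_eq {x y : ZMod (2 * m)} (h : pr m x = pr m y) :
    x = y ∨ x = y + (m : ZMod (2 * m)) := by
  have h1 : pr m (x - y) = 0 := by rw [map_sub, h, sub_self]
  rcases pr_zero h1 with h2 | h2
  · left; exact sub_eq_zero.1 h2
  · right; rw [← h2]; ring

theorem pr_m : pr m (m : ZMod (2 * m)) = 0 := by
  rw [pr_nat, ZMod.natCast_self]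

theorem even_card_of_neg {A : Type} [AddCommGroup A] [DecidableEq A] (S : Finset A)
    (hneg : ∀ s ∈ S, -s ∈ S) (hinv : ∀ s ∈ S, s + s ≠ 0) : Even S.card := by
  have h : (∑ _s ∈ S, (1 : ZMod 2)) = 0 := by
    refine Finset.sum_involution (fun s _ => -s) ?_ ?_ ?_ ?_
    · intro _ _
      decide
    · intro s hs _ h
      apply hinv s hs
      nth_rewrite 1 [← h]
      simp
    · intro s hs
      exact hneg s hs
    · intro s _
      exact neg_neg s
  rw [Finset.sum_const, nsmul_eq_mul, mul_one, ZMod.natCast_eq_zero_iff] at h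
  exact even_iff_two_dvd.2 h

/-- Circulant graphs of odd degree, no two elements of the connection set differ by `n / 2`:
locally injective homomorphisms. -/
theorem circ_simple (S : Finset (ZMod (2 * m))) (X : SimpleGraph (ZMod (2 * m)))
    (hX : ∀ v w, X.Adj v w ↔ w - v ∈ S) (ht : (m : ZMod (2 * m)) ∈ S)
    (hdis : ∀ s ∈ S, s + (m : ZMod (2 * m)) ∉ S) :
    Odd S.card ∧ ∀ (W : Type) [Finite W] (G : SimpleGraph W) (f : W → ZMod (2 * m)),
      (∀ a b, G.Adj a b → X.Adj (f a) (f b)) →
      (∀ a b c, G.Adj a b → G.Adj a c → f b = f c → b = c) → Cov G ((S.card + 2) / 2) := by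
  classical
  have hm : 0 < m := Nat.pos_of_ne_zero (NeZero.ne m)
  have : NeZero (2 * m) := ⟨by omega⟩
  have h0 : (0 : ZMod (2 * m)) ∉ S := by
    intro h
    exact X.irrefl ((hX 0 0).2 (by rwa [sub_zero]))
  have hneg : ∀ x ∈ S, -x ∈ S := by
    intro x hx
    have h1 : X.Adj 0 x := (hX 0 x).2 (by rwa [sub_zero])
    have h2 := (hX x 0).1 h1.symm
    rwa [zero_sub] at h2
  set B : Finset (ZMod m) := (S.erase (m : ZMod (2 * m))).image (pr m) with hB
  have hBneg : ∀ s ∈ B, -s ∈ B := by
    intro s hs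
    obtain ⟨x, hx, rfl⟩ := Finset.mem_image.1 hs
    obtain ⟨hx1, hx2⟩ := Finset.mem_erase.1 hx
    refine Finset.mem_image.2 ⟨-x, Finset.mem_erase.2 ⟨?_, hneg x hx2⟩, map_neg _ _⟩
    intro h
    apply hx1
    have h1 : x = -(m : ZMod (2 * m)) := by rw [← h, neg_neg]
    rw [h1, neg_eq_iff_add_eq_zero]
    exact m_add_m
  have hBinv : ∀ s ∈ B, s + s ≠ 0 := by
    intro s hs h
    obtain ⟨x, hx, rfl⟩ := Finset.mem_image.1 hs
    obtain ⟨hx1, hx2⟩ := Finset.mem_erase.1 hx
    rw [← map_add] at h
    rcases pr_zero h with h2 | h2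
    · -- `x` is an involution
      have hv : ((x.val : ℕ) : ZMod (2 * m)) = x := ZMod.natCast_zmod_val x
      have h3 : ((x.val + x.val : ℕ) : ZMod (2 * m)) = 0 := by
        push_cast; rw [hv]; exact h2
      rw [ZMod.natCast_eq_zero_iff] at h3
      obtain ⟨k, hk⟩ := h3
      have hlt := ZMod.val_lt x
      have hk' : x.val = m * k := by nlinarith
      have hk2 : k < 2 := by
        by_contra hcon
        have : m * 2 ≤ m * k := Nat.mul_le_mul_left m (by omega)
        omega
      have : k = 0 ∨ k = 1 := by omega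
      rcases this with rfl | rfl
      · apply h0
        rw [← hv, hk'] at hx2
        simpa using hx2
      · apply hx1
        rw [← hv, hk']; simp
    · apply hdis (-x) (hneg x hx2)
      rw [← h2]
      have : -x + (x + x) = x := by ring
      rw [this]; exact hx2
  have hcard : B.card + 1 = S.card := by
    rw [hB, Finset.card_image_of_injOn, Finset.card_erase_add_one ht]
    intro x hx y hy hxy
    rcases pr_eq hxy with h | h
    · exact h
    · exfalso
      apply hdis y (Finset.mem_of_mem_erase hy)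
      rw [← h]
      exact Finset.mem_of_mem_erase hx
  have hBeven := even_card_of_neg B hBneg hBinv
  obtain ⟨q, hq⟩ := hBeven
  let Gb : SimpleGraph (ZMod m) :=
    { Adj := fun a b => b - a ∈ B
      symm := ⟨fun a b h => by
        have := hBneg _ h
        rwa [neg_sub] at this⟩
      loopless := ⟨fun a h => by
        have h' : a - a ∈ B := h
        rw [sub_self] at h'
        exact hBinv 0 h' (add_zero 0)⟩ }
  have hGb : ∀ v w, Gb.Adj v w ↔ w - v ∈ B := fun _ _ => Iff.rfl
  have hLD := ld_even m B hBneg hBinv Gb hGb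
  have hCov : Cov Gb (B.card / 2 + 1) := hLD.lift Gb id (fun a b h => h) (fun a b c _ _ h => h)
  refine ⟨⟨q, by omega⟩, ?_⟩
  intro W _ G f hom inj
  have hk : (S.card + 2) / 2 = B.card / 2 + 1 := by omega
  rw [hk]
  refine cov_weak hCov ?_ (fun w => pr m (f w)) ?_ ?_
  · intro v
    rw [cay_deg_add' B Gb hGb]
    omega
  · intro a b hab
    have h1 := (hX _ _).1 (hom a b hab)
    by_cases h2 : f b - f a = (m : ZMod (2 * m))
    · left
      have h3 : f b = f a + (m : ZMod (2 * m)) := by rw [← h2]; ring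
      rw [h3, map_add, pr_m, add_zero]
    · right
      rw [hGb, ← map_sub]
      exact Finset.mem_image_of_mem _ (Finset.mem_erase.2 ⟨h2, h1⟩)
  · intro a b c hab hac h
    rcases pr_eq h with h1 | h1
    · exact inj a b c hab hac h1
    · exfalso
      have h2 := (hX _ _).1 (hom a b hab)
      have h3 := (hX _ _).1 (hom a c hac)
      apply hdis _ h3
      have h4 : f c - f a + (m : ZMod (2 * m)) = f b - f a := by rw [h1]; ring
      rw [h4]; exact h2

end

end Pool.Agent.V11153.LA
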