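import Pool.Agent.V11153.LA.Circ

set_option autoImplicit false

/-!
Circulant graphs of odd degree on `2 m` vertices whose differences other than `m` are coprime to
`m`.
-/

namespace Pool.Agent.V11153.LA

open SimpleGraph H931R3.LA Pool.Agent.W111.LAR Pool.Agent.TH525.FRG Pool.Agent.TH486.LAC
  Pool.Agent.Y647.LAC

/-- `cov_multi` with an arbitrary index type. -/
theorem cov_multi' {V W κ : Type} [Finite V] [Finite W] [Fintype κ] (X : SimpleGraph V)
    (F : κ → SimpleGraph W) (hF : ∀ c, IsLF (F c))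
    (hdeg : ∀ j, (∑ c, ((F c).neighborSet j).ncard) + 2 ≤ 2 * Fintype.card κ) (f : V → W)
    (h : ∀ u j, j ≠ f u → {v | X.Adj u v ∧ f v = j}.ncard ≤ {c | (F c).Adj (f u) j}.ncard)
    (h1 : ∀ u, {v | X.Adj u v ∧ f v = f u}.ncard ≤ 1) : Cov X (Fintype.card κ) := by
  let e := (Fintype.equivFin κ).symm
  refine cov_multi X _ (fun i => F (e i)) (fun i => hF _) ?_ f ?_ h1
  · intro j
    rw [Equiv.sum_comp e (fun c => ((F c).neighborSet j).ncard)]
    exact hdeg j
  · intro u j hj
    refine (h u j hj).trans (le_of_eq ?_)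
    have : {c | (F c).Adj (f u) j} = e '' {i | (F (e i)).Adj (f u) j} := by
      ext c
      constructor
      · intro hc
        exact ⟨e.symm c, by simpa using hc, by simp⟩
      · rintro ⟨i, hi, rfl⟩
        exact hi
    rw [this, Set.ncard_image_of_injective _ e.injective]

section

variable (m : ℕ)

/-- The first end of the edge of difference `δ` of the zigzag path. -/
def az (δ : ℕ) : ℕ := (m + 1 - δ) / 2

/-- The cycle of difference `δ` without the zigzag edge. -/
def FC (δ : ℕ) (h1 : 1 ≤ δ) (h2 : δ < m) : SimpleGraph (ZMod m) where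
  Adj x y := (y = x + (δ : ZMod m) ∧ x ≠ (az m δ : ZMod m)) ∨
    (x = y + (δ : ZMod m) ∧ y ≠ (az m δ : ZMod m))
  symm := ⟨fun x y h => h.symm⟩
  loopless := ⟨fun x h => by
    have h3 : (δ : ZMod m) ≠ 0 := by
      intro h0
      rw [ZMod.natCast_eq_zero_iff] at h0
      have := Nat.le_of_dvd (by omega) h0
      omega
    rcases h with ⟨h, _⟩ | ⟨h, _⟩ <;> exact h3 (by simpa using h)⟩

/-- The zigzag edges with differences in `T`. -/
def FR (T : Finset ℕ) (hT : ∀ δ ∈ T, 1 ≤ δ ∧ δ < m) : SimpleGraph (ZMod m) where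
  Adj x y := ∃ δ ∈ T, (x = (az m δ : ZMod m) ∧ y = (az m δ : ZMod m) + (δ : ZMod m)) ∨
    (y = (az m δ : ZMod m) ∧ x = (az m δ : ZMod m) + (δ : ZMod m))
  symm := ⟨fun x y h => by
    obtain ⟨δ, h1, h2⟩ := h
    exact ⟨δ, h1, h2.symm⟩⟩
  loopless := ⟨fun x h => by
    obtain ⟨δ, hδ, h⟩ := h
    have h3 : (δ : ZMod m) ≠ 0 := by
      intro h0
      rw [ZMod.natCast_eq_zero_iff] at h0
      have := Nat.le_of_dvd (by have := hT δ hδ; omega) h0
      have := hT δ hδ
      omega
    rcases h with ⟨h, h'⟩ | ⟨h, h'⟩ <;> exact h3 (by rw [h] at h'; simpa using h')⟩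

variable {m}

theorem fc_lf [NeZero m] {δ : ℕ} (h1 : 1 ≤ δ) (h2 : δ < m) (hc : Nat.Coprime δ m) :
    IsLF (FC m δ h1 h2) := by
  have hu : IsUnit (δ : ZMod m) := (ZMod.isUnit_iff_coprime δ m).2 hc
  obtain ⟨w, hw⟩ := hu
  let h : ZMod m → ZMod m := fun x => (x - (az m δ : ZMod m)) * (w⁻¹ : (ZMod m)ˣ)
  have hδ : (δ : ZMod m) * (w⁻¹ : (ZMod m)ˣ) = 1 := by
    rw [← hw]; simp
  have hinj : Function.Injective h := by
    intro x y hxy
    have h3 : (x - (az m δ : ZMod m)) * (w⁻¹ : (ZMod m)ˣ) =
        (y - (az m δ : ZMod m)) * (w⁻¹ : (ZMod m)ˣ) := hxy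
    have h4 := (Units.mul_left_inj (w⁻¹)).1 h3
    exact sub_left_injective h4
  have hle : FC m δ h1 h2 = pull (FC m δ h1 h2) (cyclePath m 0) h := by
    ext x y
    constructor
    · intro hxy
      refine ⟨hxy, fun h' => hxy.ne (hinj h'), ?_⟩
      rcases hxy with ⟨h3, h4⟩ | ⟨h3, h4⟩
      · left
        refine ⟨?_, ?_⟩
        · show (y - (az m δ : ZMod m)) * (w⁻¹ : (ZMod m)ˣ) = (x - (az m δ : ZMod m)) *
            (w⁻¹ : (ZMod m)ˣ) + 1
          rw [h3, ← hδ]; ring
        · intro h5
          apply h4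
          have h6 : h x = h (az m δ : ZMod m) := by
            rw [h5]
            show ((0 : ℕ) : ZMod m) = ((az m δ : ZMod m) - (az m δ : ZMod m)) * _
            rw [sub_self, zero_mul, Nat.cast_zero]
          exact hinj h6
      · right
        refine ⟨?_, ?_⟩
        · show (x - (az m δ : ZMod m)) * (w⁻¹ : (ZMod m)ˣ) = (y - (az m δ : ZMod m)) *
            (w⁻¹ : (ZMod m)ˣ) + 1
          rw [h3, ← hδ]; ring
        · intro h5
          apply h4
          have h6 : h y = h (az m δ : ZMod m) := by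
            rw [h5]
            show ((0 : ℕ) : ZMod m) = ((az m δ : ZMod m) - (az m δ : ZMod m)) * _
            rw [sub_self, zero_mul, Nat.cast_zero]
          exact hinj h6
    · intro hxy
      exact hxy.1
  rw [hle]
  exact pull_isLF _ _ h (fun u v w' _ _ hvw => hinj hvw) (cyclePath_isLF m 0 (by omega))

theorem fr_step [NeZero m] {T : Finset ℕ} {hT : ∀ δ ∈ T, 1 ≤ δ ∧ δ < m} {x y : ZMod m}
    (h : (FR m T hT).Adj x y) :
    zig m x.val = zig m y.val + 1 ∨ zig m y.val = zig m x.val + 1 := by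
  have key : ∀ x y : ZMod m, (∃ δ ∈ T, x = (az m δ : ZMod m) ∧
      y = (az m δ : ZMod m) + (δ : ZMod m)) →
      zig m x.val = zig m y.val + 1 ∨ zig m y.val = zig m x.val + 1 := by
    rintro x y ⟨δ, hδ, h1, h2⟩
    obtain ⟨h3, h4⟩ := hT δ hδ
    have e1 : x.val = az m δ := by
      rw [h1, ZMod.val_natCast, Nat.mod_eq_of_lt]
      unfold az; omega
    have e2 : y.val = (az m δ + δ) % m := by
      rw [h2, ← Nat.cast_add, ZMod.val_natCast]
    have e3 : az m δ = (m + 1 - δ) / 2 := rfl
    have hle : az m δ + δ ≤ m := by omega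
    rcases Nat.lt_or_ge (az m δ + δ) m with h5 | h5
    · rw [Nat.mod_eq_of_lt h5] at e2
      apply zig_adj (ZMod.val_lt x) (ZMod.val_lt y)
      · omega
      · omega
    · have h6 : az m δ + δ = m := by omega
      rw [h6, Nat.mod_self] at e2
      apply zig_adj (ZMod.val_lt x) (ZMod.val_lt y)
      · omega
      · omega
  obtain ⟨δ, hδ, h | h⟩ := h
  · exact key x y ⟨δ, hδ, h⟩
  · exact (key y x ⟨δ, hδ, h⟩).symm

theorem fr_lf [NeZero m] (T : Finset ℕ) (hT : ∀ δ ∈ T, 1 ≤ δ ∧ δ < m) : IsLF (FR m T hT) := by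
  have hz : ∀ v w : ZMod m, zig m v.val = zig m w.val → v = w := fun v w h =>
    ZMod.val_injective m (zig_inj (ZMod.val_lt v) (ZMod.val_lt w) h)
  refine isLF_of_rank _ (fun x => zig m x.val) ?_ ?_ ?_
  · intro u v h
    rcases fr_step h with h1 | h1 <;> omega
  · intro u v w hv hw h1 h2
    rcases fr_step hv with h3 | h3 <;> rcases fr_step hw with h4 | h4 <;>
      first | omega | exact hz _ _ (by omega)
  · intro u v w hv hw h1 h2
    rcases fr_step hv with h3 | h3 <;> rcases fr_step hw with h4 | h4 <;>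
      first | omega | exact hz _ _ (by omega)

/-- The family of linear forests. -/
def FF (T : Finset ℕ) (hT : ∀ δ ∈ T, 1 ≤ δ ∧ δ < m) : Option T → SimpleGraph (ZMod m)
  | none => FR m T hT
  | some δ => FC m δ.1 (hT δ.1 δ.2).1 (hT δ.1 δ.2).2

theorem ff_deg [NeZero m] (T : Finset ℕ) (hT : ∀ δ ∈ T, 1 ≤ δ ∧ δ < m) (j : ZMod m) :
    ∑ c, ((FF T hT c).neighborSet j).ncard ≤ 2 * T.card := by
  classical
  rw [Fintype.sum_option]
  let P : ℕ → Prop := fun δ => j = (az m δ : ZMod m) ∨ j = (az m δ : ZMod m) + (δ : ZMod m)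
  have h1 : ((FF T hT none).neighborSet j).ncard ≤ (T.filter P).card := by
    have hsub : (FF T hT none).neighborSet j ⊆ (((T.filter P).image fun δ =>
        if j = (az m δ : ZMod m) then (az m δ : ZMod m) + (δ : ZMod m) else (az m δ : ZMod m) :
        Finset (ZMod m)) : Set (ZMod m)) := by
      rintro y ⟨δ, hδ, ⟨h1, h2⟩ | ⟨h1, h2⟩⟩
      · rw [Finset.mem_coe, Finset.mem_image]
        exact ⟨δ, Finset.mem_filter.2 ⟨hδ, Or.inl h1⟩, by rw [if_pos h1, h2]⟩
      · rw [Finset.mem_coe, Finset.mem_image]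
        refine ⟨δ, Finset.mem_filter.2 ⟨hδ, Or.inr h2⟩, ?_⟩
        have h3 : j ≠ (az m δ : ZMod m) := by
          intro h
          have hadj : (FR m T hT).Adj j y := ⟨δ, hδ, Or.inr ⟨h1, h2⟩⟩
          exact hadj.ne (h.trans h1.symm)
        rw [if_neg h3, h1]
    refine (Set.ncard_le_ncard hsub (Set.toFinite _)).trans ?_
    rw [Set.ncard_coe_finset]
    exact Finset.card_image_le
  have h2 : ∀ δ : T, ((FF T hT (some δ)).neighborSet j).ncard + (if P δ.1 then 1 else 0) ≤ 2 := by
    intro δ
    obtain ⟨h3, h4⟩ := hT δ.1 δ.2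
    by_cases hP : P δ.1
    · rw [if_pos hP]
      have : ((FF T hT (some δ)).neighborSet j).ncard ≤ 1 := by
        rw [Set.ncard_le_one (Set.toFinite _)]
        rcases hP with hP | hP
        · rintro a (⟨ha, ha'⟩ | ⟨ha, ha'⟩) b (⟨hb, hb'⟩ | ⟨hb, hb'⟩)
          · exact absurd hP ha'
          · exact absurd hP ha'
          · exact absurd hP hb'
          · exact add_right_cancel (ha.symm.trans hb)
        · rintro a (⟨ha, ha'⟩ | ⟨ha, ha'⟩) b (⟨hb, hb'⟩ | ⟨hb, hb'⟩)
          · rw [ha, hb]
          · exact absurd (add_right_cancel (hb.symm.trans hP)) hb'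
          · exact absurd (add_right_cancel (ha.symm.trans hP)) ha'
          · exact absurd (add_right_cancel (ha.symm.trans hP)) ha'
      omega
    · rw [if_neg hP]
      have hsub : (FF T hT (some δ)).neighborSet j ⊆ {j + (δ.1 : ZMod m), j - (δ.1 : ZMod m)} := by
        rintro a (⟨ha, _⟩ | ⟨ha, _⟩)
        · exact Or.inl ha
        · exact Or.inr (eq_sub_of_add_eq ha.symm)
      have h5 : ({j + (δ.1 : ZMod m), j - (δ.1 : ZMod m)} : Set (ZMod m)).ncard ≤ 2 :=
        (Set.ncard_insert_le _ _).trans (by simp)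
      exact (Set.ncard_le_ncard hsub (Set.toFinite _)).trans h5
  have h3 : ∑ δ : T, ((FF T hT (some δ)).neighborSet j).ncard + (T.filter P).card ≤ 2 * T.card := by
    have h4 : (T.filter P).card = ∑ δ : T, if P δ.1 then 1 else 0 := by
      rw [Finset.card_filter]
      exact (Finset.sum_coe_sort T (fun δ => if P δ then 1 else 0)).symm
    rw [h4, ← Finset.sum_add_distrib]
    refine (Finset.sum_le_sum fun δ _ => h2 δ).trans ?_
    rw [Finset.sum_const, Finset.card_univ, Fintype.card_coe, smul_eq_mul, mul_comm]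
  omega

/-- Circulant graphs of odd degree on `2 m` vertices, all differences except `m` coprime to `m`. -/
theorem circ_coprime [NeZero m] (hm3 : 3 ≤ m) (S : Finset (ZMod (2 * m)))
    (X : SimpleGraph (ZMod (2 * m)))
    (hX : ∀ v w, X.Adj v w ↔ w - v ∈ S) (ht : (m : ZMod (2 * m)) ∈ S)
    (hcop : ∀ s ∈ S, s ≠ (m : ZMod (2 * m)) → Nat.Coprime s.val m) :
    Odd S.card ∧ Cov X ((S.card + 2) / 2) := by
  classical
  have : NeZero (2 * m) := ⟨by omega⟩
  have h0 : (0 : ZMod (2 * m)) ∉ S := by
    intro h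
    exact X.irrefl ((hX 0 0).2 (by rwa [sub_zero]))
  have hneg : ∀ x ∈ S, -x ∈ S := by
    intro x hx
    have h1 : X.Adj 0 x := (hX 0 x).2 (by rwa [sub_zero])
    have h2 := (hX x 0).1 h1.symm
    rwa [zero_sub] at h2
  set T : Finset ℕ := (Finset.range m).filter (fun d => 1 ≤ d ∧ (d : ZMod (2 * m)) ∈ S) with hTdef
  have hTmem : ∀ d, d ∈ T ↔ 1 ≤ d ∧ d < m ∧ (d : ZMod (2 * m)) ∈ S := by
    intro d
    rw [hTdef, Finset.mem_filter, Finset.mem_range]
    tauto
  have hT : ∀ δ ∈ T, 1 ≤ δ ∧ δ < m := fun δ hδ => ⟨((hTmem δ).1 hδ).1, ((hTmem δ).1 hδ).2.1⟩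
  have hTc : ∀ δ ∈ T, Nat.Coprime δ m := by
    intro δ hδ
    obtain ⟨h1, h2, h3⟩ := (hTmem δ).1 hδ
    have h4 := hcop _ h3 (by
      intro h
      rw [ZMod.natCast_eq_natCast_iff'] at h
      rw [Nat.mod_eq_of_lt (by omega), Nat.mod_eq_of_lt (by omega)] at h
      omega)
    rwa [ZMod.val_natCast, Nat.mod_eq_of_lt (by omega)] at h4
  -- elements of `S` over a residue
  have hneg' : ∀ r : ℕ, r ≤ m → (((m - r : ℕ) : ZMod (2 * m))) =
      -((r : ZMod (2 * m)) + (m : ZMod (2 * m))) := by
    intro r hr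
    rw [Nat.cast_sub hr]
    have := m_add_m (m := m)
    linear_combination this
  -- cardinality
  have hcard : S.card = 2 * T.card + 1 := by
    have hinj : Set.InjOn (fun d : ℕ => (d : ZMod (2 * m))) T := by
      intro d hd d' hd' h
      have h2 := (ZMod.natCast_eq_natCast_iff' _ _ _).1 h
      have h3 := hT d hd
      have h4 := hT d' hd'
      rwa [Nat.mod_eq_of_lt (by omega), Nat.mod_eq_of_lt (by omega)] at h2
    have hS : S.erase (m : ZMod (2 * m)) = T.image (fun d : ℕ => (d : ZMod (2 * m))) ∪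
        T.image (fun d : ℕ => -(d : ZMod (2 * m))) := by
      ext z
      rw [Finset.mem_erase, Finset.mem_union, Finset.mem_image, Finset.mem_image]
      constructor
      · rintro ⟨hz1, hz2⟩
        have hv : ((z.val : ℕ) : ZMod (2 * m)) = z := ZMod.natCast_zmod_val z
        have hlt := ZMod.val_lt z
        have hz0 : z.val ≠ 0 := by
          intro h
          apply h0
          rw [h, Nat.cast_zero] at hv
          rw [hv]; exact hz2
        rcases Nat.lt_trichotomy z.val m with h | h | h
        · exact Or.inl ⟨z.val, (hTmem _).2 ⟨by omega, h, by rwa [hv]⟩, hv⟩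
        · exact absurd (by rw [← hv, h]) hz1
        · right
          have h1 : (((2 * m - z.val : ℕ)) : ZMod (2 * m)) = -z := by
            rw [Nat.cast_sub hlt.le, ZMod.natCast_self, hv, zero_sub]
          refine ⟨2 * m - z.val, (hTmem _).2 ⟨by omega, by omega, ?_⟩, ?_⟩
          · rw [h1]; exact hneg z hz2
          · rw [h1, neg_neg]
      · rintro (⟨d, hd, rfl⟩ | ⟨d, hd, rfl⟩)
        · obtain ⟨h1, h2, h3⟩ := (hTmem d).1 hd
          refine ⟨?_, h3⟩
          intro h
          rw [ZMod.natCast_eq_natCast_iff'] at h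
          rw [Nat.mod_eq_of_lt (by omega), Nat.mod_eq_of_lt (by omega)] at h
          omega
        · obtain ⟨h1, h2, h3⟩ := (hTmem d).1 hd
          refine ⟨?_, hneg _ h3⟩
          intro h
          have h4 : ((d + m : ℕ) : ZMod (2 * m)) = 0 := by
            push_cast; rw [← h]; ring
          rw [ZMod.natCast_eq_zero_iff] at h4
          have := Nat.le_of_dvd (by omega) h4
          omega
    have hdis : Disjoint (T.image (fun d : ℕ => (d : ZMod (2 * m))))
        (T.image (fun d : ℕ => -(d : ZMod (2 * m)))) := by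
      rw [Finset.disjoint_left]
      intro z hz hz'
      obtain ⟨d, hd, rfl⟩ := Finset.mem_image.1 hz
      obtain ⟨d', hd', h⟩ := Finset.mem_image.1 hz'
      have h3 := hT d hd
      have h4 := hT d' hd'
      have h5 : ((d + d' : ℕ) : ZMod (2 * m)) = 0 := by
        push_cast
        have h' : -(d' : ZMod (2 * m)) = d := h
        rw [← h']; ring
      rw [ZMod.natCast_eq_zero_iff] at h5
      have := Nat.le_of_dvd (by omega) h5
      omega
    rw [← Finset.card_erase_add_one ht, hS, Finset.card_union_of_disjoint hdis,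
      Finset.card_image_of_injOn hinj,
      Finset.card_image_of_injOn (fun d hd d' hd' h => hinj hd hd' (neg_injective h))]
    omega
  refine ⟨⟨T.card, hcard⟩, ?_⟩
  have hk : (S.card + 2) / 2 = Fintype.card (Option T) := by
    rw [Fintype.card_option, Fintype.card_coe]; omega
  rw [hk]
  refine cov_multi' X (FF T hT) ?_ ?_ (pr m) ?_ ?_
  · rintro (_ | δ)
    · exact fr_lf T hT
    · exact fc_lf (hT δ.1 δ.2).1 (hT δ.1 δ.2).2 (hTc δ.1 δ.2)
  · intro j
    have := ff_deg T hT j
    rw [Fintype.card_option, Fintype.card_coe]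
    omega
  · intro u j hj
    set d : ZMod m := j - pr m u with hd
    have hd0 : d ≠ 0 := fun h => hj (sub_eq_zero.1 h)
    set r := d.val with hr
    have hrm : r < m := ZMod.val_lt d
    have hr0 : r ≠ 0 := fun h => hd0 ((ZMod.val_eq_zero d).1 h)
    have hrd : ((r : ℕ) : ZMod m) = d := ZMod.natCast_zmod_val d
    have hj' : j = pr m u + (r : ZMod m) := by rw [hrd, hd]; ring
    -- the two possible neighbours
    have hnb : ∀ v, X.Adj u v → pr m v = j →
        (v = u + (r : ZMod (2 * m)) ∧ r ∈ T) ∨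
        (v = u + (r : ZMod (2 * m)) + (m : ZMod (2 * m)) ∧ m - r ∈ T) := by
      intro v hv hvj
      have h1 := (hX u v).1 hv
      have h2 : pr m v = pr m (u + (r : ZMod (2 * m))) := by
        rw [map_add, pr_nat, hvj, hj']
      rcases pr_eq h2 with h3 | h3
      · left
        refine ⟨h3, (hTmem r).2 ⟨by omega, hrm, ?_⟩⟩
        rw [h3] at h1
        simpa using h1
      · right
        refine ⟨h3, (hTmem (m - r)).2 ⟨by omega, by omega, ?_⟩⟩
        rw [hneg' r hrm.le]
        apply hneg
        rw [h3] at h1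
        have h4 : u + (r : ZMod (2 * m)) + (m : ZMod (2 * m)) - u =
            (r : ZMod (2 * m)) + (m : ZMod (2 * m)) := by ring
        rwa [h4] at h1
    -- both
    have haz : ∀ δ, az m δ = (m + 1 - δ) / 2 := fun _ => rfl
    have hcastlt : ∀ a b : ℕ, a ≤ m → b ≤ m → 1 ≤ a → 1 ≤ b → (a : ZMod m) = (b : ZMod m) →
        a = b := by
      intro a b ha hb ha1 hb1 h
      rw [ZMod.natCast_eq_natCast_iff'] at h
      rcases Nat.lt_or_ge a m with h1 | h1 <;> rcases Nat.lt_or_ge b m with h2 | h2
      · rwa [Nat.mod_eq_of_lt h1, Nat.mod_eq_of_lt h2] at h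
      · have : b = m := by omega
        rw [this, Nat.mod_self, Nat.mod_eq_of_lt h1] at h
        omega
      · have : a = m := by omega
        rw [this, Nat.mod_self, Nat.mod_eq_of_lt h2] at h
        omega
      · omega
    have htwo : r ∈ T → (r : ZMod m) + (r : ZMod m) ≠ 0 := by
      intro hrT h
      have h1 : ((2 * r : ℕ) : ZMod m) = 0 := by push_cast; rw [← h]; ring
      rw [ZMod.natCast_eq_zero_iff] at h1
      have h2 : m ∣ 2 := (Nat.Coprime.dvd_mul_right (hTc r hrT).symm).1 h1
      have := Nat.le_of_dvd (by omega) h2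
      omega
    have hsubm : ((m - r : ℕ) : ZMod m) = -(r : ZMod m) := by
      rw [Nat.cast_sub hrm.le, ZMod.natCast_self, zero_sub]
    -- assignment of forests
    let A1 : r ∈ T → Option T := fun h => if pr m u = (az m r : ZMod m) then none else some ⟨r, h⟩
    let A2 : m - r ∈ T → Option T := fun h =>
      if j = (az m (m - r) : ZMod m) then none else some ⟨m - r, h⟩
    have hA1 : ∀ h, (FF T hT (A1 h)).Adj (pr m u) j := by
      intro h
      by_cases h1 : pr m u = (az m r : ZMod m)
      · have : A1 h = none := if_pos h1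
        rw [this]
        exact ⟨r, h, Or.inl ⟨h1, by rw [hj', h1]⟩⟩
      · have : A1 h = some ⟨r, h⟩ := if_neg h1
        rw [this]
        exact Or.inl ⟨hj', h1⟩
    have hA2 : ∀ h, (FF T hT (A2 h)).Adj (pr m u) j := by
      intro h
      have h2 : pr m u = j + ((m - r : ℕ) : ZMod m) := by rw [hsubm, hj']; ring
      by_cases h1 : j = (az m (m - r) : ZMod m)
      · have : A2 h = none := if_pos h1
        rw [this]
        exact ⟨m - r, h, Or.inr ⟨h1, by rw [h2, h1]⟩⟩
      · have : A2 h = some ⟨m - r, h⟩ := if_neg h1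
        rw [this]
        exact Or.inr ⟨h2, h1⟩
    have hA12 : ∀ h h', A1 h ≠ A2 h' := by
      intro h h' he
      by_cases h1 : pr m u = (az m r : ZMod m)
      · have e1 : A1 h = none := if_pos h1
        by_cases h2 : j = (az m (m - r) : ZMod m)
        · have h3 : ((az m r + r : ℕ) : ZMod m) = ((az m (m - r) : ℕ) : ZMod m) := by
            rw [Nat.cast_add, ← h1, ← h2, hj']
          have a1 := haz r
          have a2 := haz (m - r)
          have h4 := hcastlt _ _ (by omega) (by omega) (by omega) (by omega) h3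
          omega
        · have e2 : A2 h' = some ⟨m - r, h'⟩ := if_neg h2
          rw [e1, e2] at he
          exact absurd he (by simp)
      · have e1 : A1 h = some ⟨r, h⟩ := if_neg h1
        by_cases h2 : j = (az m (m - r) : ZMod m)
        · have e2 : A2 h' = none := if_pos h2
          rw [e1, e2] at he
          exact absurd he (by simp)
        · have e2 : A2 h' = some ⟨m - r, h'⟩ := if_neg h2
          rw [e1, e2] at he
          have h3 : r = m - r := congrArg Subtype.val (Option.some.inj he)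
          apply htwo h
          have h4 : ((r + r : ℕ) : ZMod m) = 0 := by
            have : r + r = m := by omega
            rw [this, ZMod.natCast_self]
          rw [← h4]; push_cast; ring
    -- counting
    by_cases hr1 : r ∈ T
    · by_cases hr2 : m - r ∈ T
      · have h1 : {v | X.Adj u v ∧ pr m v = j} ⊆
            {u + (r : ZMod (2 * m)), u + (r : ZMod (2 * m)) + (m : ZMod (2 * m))} := by
          rintro v ⟨hv, hvj⟩
          rcases hnb v hv hvj with ⟨h, _⟩ | ⟨h, _⟩
          · exact Or.inl h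
          · exact Or.inr h
        have h2 : ({u + (r : ZMod (2 * m)), u + (r : ZMod (2 * m)) + (m : ZMod (2 * m))} :
            Set (ZMod (2 * m))).ncard ≤ 2 := (Set.ncard_insert_le _ _).trans (by simp)
        have h3 : ({A1 hr1, A2 hr2} : Set (Option T)) ⊆ {c | (FF T hT c).Adj (pr m u) j} := by
          rintro c (rfl | rfl)
          · exact hA1 hr1
          · exact hA2 hr2
        have h4 := Set.ncard_le_ncard h3 (Set.toFinite _)
        rw [Set.ncard_pair (hA12 hr1 hr2)] at h4
        exact ((Set.ncard_le_ncard h1 (Set.toFinite _)).trans h2).trans h4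
      · have h1 : {v | X.Adj u v ∧ pr m v = j} ⊆ {u + (r : ZMod (2 * m))} := by
          rintro v ⟨hv, hvj⟩
          rcases hnb v hv hvj with ⟨h, _⟩ | ⟨_, h⟩
          · exact h
          · exact absurd h hr2
        have h3 : ({A1 hr1} : Set (Option T)) ⊆ {c | (FF T hT c).Adj (pr m u) j} := by
          rintro c rfl
          exact hA1 hr1
        have h4 := Set.ncard_le_ncard h3 (Set.toFinite _)
        have h5 := Set.ncard_le_ncard h1 (Set.toFinite _)
        rw [Set.ncard_singleton] at h4 h5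
        omega
    · by_cases hr2 : m - r ∈ T
      · have h1 : {v | X.Adj u v ∧ pr m v = j} ⊆
            {u + (r : ZMod (2 * m)) + (m : ZMod (2 * m))} := by
          rintro v ⟨hv, hvj⟩
          rcases hnb v hv hvj with ⟨_, h⟩ | ⟨h, _⟩
          · exact absurd h hr1
          · exact h
        have h3 : ({A2 hr2} : Set (Option T)) ⊆ {c | (FF T hT c).Adj (pr m u) j} := by
          rintro c rfl
          exact hA2 hr2
        have h4 := Set.ncard_le_ncard h3 (Set.toFinite _)
        have h5 := Set.ncard_le_ncard h1 (Set.toFinite _)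
        rw [Set.ncard_singleton] at h4 h5
        omega
      · have h1 : {v | X.Adj u v ∧ pr m v = j} = ∅ := by
          ext v
          simp only [Set.mem_ofPred_eq, Set.mem_empty_iff_false, iff_false]
          rintro ⟨hv, hvj⟩
          rcases hnb v hv hvj with ⟨_, h⟩ | ⟨_, h⟩
          · exact hr1 h
          · exact hr2 h
        rw [h1, Set.ncard_empty]
        exact Nat.zero_le _
  · intro u
    rw [Set.ncard_le_one (Set.toFinite _)]
    have key : ∀ v, X.Adj u v → pr m v = pr m u → v = u + (m : ZMod (2 * m)) := by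
      intro v hv h
      rcases pr_eq h with h1 | h1
      · exact absurd h1.symm hv.ne
      · exact h1
    rintro a ⟨ha, ha'⟩ b ⟨hb, hb'⟩
    rw [key a ha ha', key b hb hb']

end

end Pool.Agent.V11153.LA
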